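import Mathlib
import Pool.Agent.L7h91.GT.Cor

/-! Necessary conditions for a factorisation of the reduced polynomials of `S_n`. -/

namespace Pool.Agent.Results.MP_9c0351_nt.FactorizationCriterion

open Polynomial

/-- The polynomial `S_n` of the problem. -/
noncomputable def S (n : ℕ) : ℤ[X] :=
  C ((n : ℤ) - 1) * (X ^ (n + 1) - 1) - C ((n : ℤ) + 1) * (X ^ n - X)

/-- The reduced polynomial of the problem: the quotient of `S_n` by the monic polynomial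
`(x-1)^3 (x+1)` for odd `n` and `(x-1)^3` for even `n` (the divisions are exact). -/
noncomputable def redS (n : ℕ) : ℤ[X] :=
  if Odd n then S n /ₘ ((X - 1) ^ 3 * (X + 1)) else S n /ₘ (X - 1) ^ 3

/-- The reduced polynomial over `ℚ`. -/
noncomputable def redSQ (n : ℕ) : ℚ[X] := (redS n).map (Int.castRingHom ℚ)

/-- Let `n ≥ 4` and let the reduced polynomial be a product of two nonconstant polynomials `f`, `g`
over `ℚ`. Then there are coprime `c, d > 1` with the following properties: if `n` is odd,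
`c d = (n-1)/2`, `c^(n-1) ≡ 1 mod d (n+1)/2` and `d^(n-1) ≡ 1 mod c (n+1)/2`; if `n` is even,
`c d = n-1` and `c^(n-1) u ≡ 2^(deg f) mod d(n+1)`, `d^(n-1) v ≡ 2^(deg g) mod c(n+1)` for some
`u, v` with `2uv = n`. -/
theorem result (n : ℕ) (hn : 4 ≤ n) (f g : ℚ[X]) (hf : 0 < f.natDegree) (hg : 0 < g.natDegree)
    (hfg : redSQ n = f * g) :
    Even f.natDegree ∧ Even g.natDegree ∧ ∃ c d : ℕ, 1 < c ∧ 1 < d ∧ Nat.Coprime c d ∧
      ((Odd n ∧ c * d = (n - 1) / 2 ∧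
          c ^ (n - 1) ≡ 1 [MOD d * ((n + 1) / 2)] ∧ d ^ (n - 1) ≡ 1 [MOD c * ((n + 1) / 2)] ∧
          c ^ (n - 1) ≤ n ^ f.natDegree ∧ d ^ (n - 1) ≤ n ^ g.natDegree) ∨
       (Even n ∧ c * d = n - 1 ∧ ∃ u v : ℕ, 2 * (u * v) = n ∧
          c ^ (n - 1) * u ≡ 2 ^ f.natDegree [MOD d * (n + 1)] ∧
          d ^ (n - 1) * v ≡ 2 ^ g.natDegree [MOD c * (n + 1)] ∧
          c ^ (n - 1) ≤ (2 * n) ^ f.natDegree ∧ d ^ (n - 1) ≤ (2 * n) ^ g.natDegree)) := by
  obtain ⟨c, d, u, v, hc, hd, hcd, hcop, h1, h2, ho, he, h3, h4, h5, h6⟩ :=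
    Pool.Agent.L7h91.GT.core hn f g hf hg hfg
  refine ⟨h5, h6, c, d, hc, hd, hcop, ?_⟩
  rcases Nat.even_or_odd n with hp | hp
  · right
    have hM : Pool.Agent.L7h91.GT.M n = n - 1 := by
      rw [Pool.Agent.L7h91.GT.M, Pool.Agent.L7h91.GT.gcd_even (by omega) hp, Nat.div_one]
    have hL : Pool.Agent.L7h91.GT.L n = n + 1 := by
      rw [Pool.Agent.L7h91.GT.L, Pool.Agent.L7h91.GT.gcd_even (by omega) hp, Nat.div_one]
    rw [hM] at hcd h1 h2 h3 h4
    rw [hL] at h1 h2 h3 h4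
    have e1 : n + 1 + (n - 1) = 2 * n := by omega
    have e2 : n + 1 - (n - 1) = 2 := by omega
    rw [e1] at h1 h2
    rw [e2, mul_comm (n + 1)] at h3 h4
    exact ⟨hp, hcd, u, v, he hp, h3, h4, h1, h2⟩
  · left
    obtain ⟨hu, hv⟩ := ho hp
    rw [Pool.Agent.L7h91.GT.M_odd hp] at hcd h1 h2 h3 h4
    rw [Pool.Agent.L7h91.GT.L_odd hp] at h1 h2 h3 h4
    obtain ⟨j, hj⟩ := id hp
    have e1 : (n + 1) / 2 + (n - 1) / 2 = n := by omega
    have e2 : (n + 1) / 2 - (n - 1) / 2 = 1 := by omega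
    rw [e1] at h1 h2
    rw [e2, one_pow, mul_comm ((n + 1) / 2)] at h3 h4
    rw [hu, mul_one] at h3
    rw [hv, mul_one] at h4
    exact ⟨hp, hcd, h3, h4, h1, h2⟩

end Pool.Agent.Results.MP_9c0351_nt.FactorizationCriterion
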