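import Mathlib
import Pool.Agent.L7h91.GT.Pp

/-! Explicit classes of `n` for which the reduced polynomial of `S_n` is irreducible. -/

namespace Pool.Agent.Results.MP_9c0351_nt.IrreducibleClasses

open Polynomial

/-- The polynomial `S_n` of the problem. -/
noncomputable def S (n : ℕ) : ℤ[X] :=
  C ((n : ℤ) - 1) * (X ^ (n + 1) - 1) - C ((n : ℤ) + 1) * (X ^ n - X)

/-- The reduced polynomial of the problem: the quotient of `S_n` by the monic polynomial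
`(x-1)^3 (x+1)` for odd `n` and `(x-1)^3` for even `n` (the divisions are exact). -/
noncomputable def redS (n : ℕ) : ℤ[X] :=
  if Odd n then S n /ₘ ((X - 1) ^ 3 * (X + 1)) else S n /ₘ (X - 1) ^ 3

/-- The reduced polynomial over `ℚ`. -/
noncomputable def redSQ (n : ℕ) : ℚ[X] := (redS n).map (Int.castRingHom ℚ)

/-- The explicit class of numbers `n`: `(n-1)/gcd(2,n-1)` is a prime power; or `n = 4q-1` with `q`
a prime power; or `n = 2 m q^b + 1` with `q` a prime which divides neither `m` nor `e^(2m) - 1` for a divisor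
`e > 1` of `m`, for instance any prime `q > m^(2m)`; or the odd one `N` of `n`, `n+1` is prime; or
there are primes `P, Q ≥ 5` which divide the odd one `N`, respectively the even one `N'`, of `n`,
`n+1` exactly once, with `P Q ≥ 4 N`. -/
def Good (n : ℕ) : Prop :=
  IsPrimePow ((n - 1) / Nat.gcd 2 (n - 1)) ∨
  (∃ q : ℕ, IsPrimePow q ∧ n = 4 * q - 1) ∨
  (∃ m q b : ℕ, q.Prime ∧ 0 < b ∧ n = 2 * m * q ^ b + 1 ∧ ¬ q ∣ m ∧
    ∀ e, e ∣ m → 1 < e → ¬ q ∣ e ^ (2 * m) - 1) ∨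
  (∃ m q b : ℕ, q.Prime ∧ 0 < b ∧ n = 2 * m * q ^ b + 1 ∧ m ^ (2 * m) < q) ∨
  (∃ N N' : ℕ, Odd N ∧ ((N = n ∧ N' = n + 1) ∨ (N = n + 1 ∧ N' = n)) ∧
    (N.Prime ∨ ∃ P Q : ℕ, P.Prime ∧ Q.Prime ∧ 5 ≤ P ∧ 5 ≤ Q ∧ P ∣ N ∧ ¬ P ^ 2 ∣ N ∧
      Q ∣ N' ∧ ¬ Q ^ 2 ∣ N' ∧ 4 * N ≤ P * Q))

/-- The reduced polynomial is irreducible over `ℚ` for every `n ≥ 4` in the explicit class. -/
theorem result (n : ℕ) (hn : 4 ≤ n) (h : Good n) : Irreducible (redSQ n) := by
  rcases h with h | h | h | h | ⟨N, N', hN, hc, h⟩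
  · exact Pool.Agent.L7h91.GT.class_one hn (Or.inl h)
  · obtain ⟨q, hq, rfl⟩ := h
    obtain ⟨p, b, hp, hb, rfl⟩ := (isPrimePow_nat_iff q).mp hq
    exact Pool.Agent.L7h91.GT.irr_four_pp hp hb
  · exact Pool.Agent.L7h91.GT.class_one hn (Or.inr (Or.inr (Or.inl h)))
  · exact Pool.Agent.L7h91.GT.class_one hn (Or.inr (Or.inr (Or.inr h)))
  · exact Pool.Agent.L7h91.GT.class_two hn N N' hN hc h

end Pool.Agent.Results.MP_9c0351_nt.IrreducibleClasses
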