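import Pool.Agent.L7h55.TN.Fin
import Pool.Agent.L7h9.TN.Sml
import Pool.Agent.L7h73.TN.Num
import Pool.Agent.L7h25.TN.Kro
import Pool.Agent.L7h99.TN.CYR
import Pool.Agent.L7h16.TN.Lem
import Pool.Agent.L7h87.TN.A
import Pool.Agent.L7h87.TN.B

/-!
# MP_9c0351_nt: different polynomials S_m, S_n have no common roots except 1 and -1

Authors: helper55 (proof, assembly), helper9, helper16, helper25, helper73, helper87,
helper99 (parts).
-/

open Polynomial

namespace Pool.Agent.Results.MP_9c0351_nt.NoCommonRoots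

/-- The polynomial `S_n(x) = (n-1)(x^(n+1)-1) - (n+1)(x^n-x)` of the problem. -/
noncomputable def S (n : ℕ) : ℤ[X] :=
  C ((n : ℤ) - 1) * (X ^ (n + 1) - 1) - C ((n : ℤ) + 1) * (X ^ n - X)

theorem aeval_S (n : ℕ) (z : ℂ) : aeval z (S n) = Pool.Agent.L7h55.TN.S n z := by
  simp [S, Pool.Agent.L7h55.TN.S]

/-- The equation `tan (n t) = n tan t`, cleared of denominators, is `S_n = 0` at
`exp (2 i t)`. -/
theorem S_exp (n : ℕ) (t : ℝ)
    (h : Real.cos t * Real.sin (n * t) = n * (Real.sin t * Real.cos (n * t))) :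
    Pool.Agent.L7h55.TN.S n (Complex.exp (t * Complex.I) ^ 2) = 0 := by
  set e := Complex.exp (t * Complex.I) with he
  have hI : Complex.I ^ 2 = -1 := Complex.I_sq
  have h0 : e ≠ 0 := Complex.exp_ne_zero _
  have hneg : Complex.exp (-(t * Complex.I)) = e⁻¹ := by rw [Complex.exp_neg]
  have hpos : Complex.exp (((n : ℝ) * t : ℝ) * Complex.I) = e ^ n := by
    rw [he, ← Complex.exp_nat_mul]
    congr 1
    push_cast
    ring
  have hneg2 : Complex.exp (-((((n : ℝ) * t : ℝ) : ℂ) * Complex.I)) = (e ^ n)⁻¹ := by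
    rw [Complex.exp_neg, hpos]
  have hc : (Real.cos t : ℂ) = (e + e⁻¹) / 2 := by
    rw [Complex.ofReal_cos, Complex.cos, neg_mul, hneg]
  have hs : (Real.sin t : ℂ) = (e⁻¹ - e) * Complex.I / 2 := by
    rw [Complex.ofReal_sin, Complex.sin, neg_mul, hneg]
  have hcn : (Real.cos (n * t) : ℂ) = (e ^ n + (e ^ n)⁻¹) / 2 := by
    rw [Complex.ofReal_cos, Complex.cos, neg_mul, hneg2, hpos]
  have hsn : (Real.sin (n * t) : ℂ) = ((e ^ n)⁻¹ - e ^ n) * Complex.I / 2 := by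
    rw [Complex.ofReal_sin, Complex.sin, neg_mul, hneg2, hpos]
  have hC : (Real.cos t : ℂ) * (Real.sin (n * t) : ℂ) =
      (n : ℂ) * ((Real.sin t : ℂ) * (Real.cos (n * t) : ℂ)) := by
    exact_mod_cast congrArg (fun r : ℝ => (r : ℂ)) h
  rw [hc, hs, hcn, hsn] at hC
  have hn0 : e ^ n ≠ 0 := pow_ne_zero _ h0
  have hI0 : Complex.I ≠ 0 := Complex.I_ne_zero
  have key : (e ^ 2 + 1) * (1 - (e ^ n) ^ 2) = n * ((1 - e ^ 2) * ((e ^ n) ^ 2 + 1)) := by
    have h4 : (4 : ℂ) * e * e ^ n * ((e + e⁻¹) / 2 * (((e ^ n)⁻¹ - e ^ n) * Complex.I / 2)) =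
        (4 : ℂ) * e * e ^ n *
          ((n : ℂ) * (((e⁻¹ - e) * Complex.I / 2) * ((e ^ n + (e ^ n)⁻¹) / 2))) := by
      rw [hC]
    have h5 : (4 : ℂ) * e * e ^ n * ((e + e⁻¹) / 2 * (((e ^ n)⁻¹ - e ^ n) * Complex.I / 2)) =
        Complex.I * ((e ^ 2 + 1) * (1 - (e ^ n) ^ 2)) := by
      field_simp
      ring
    have h6 : (4 : ℂ) * e * e ^ n *
          ((n : ℂ) * (((e⁻¹ - e) * Complex.I / 2) * ((e ^ n + (e ^ n)⁻¹) / 2))) =
        Complex.I * (n * ((1 - e ^ 2) * ((e ^ n) ^ 2 + 1))) := by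
      field_simp
      ring
    rw [h5, h6] at h4
    exact mul_left_cancel₀ hI0 h4
  unfold Pool.Agent.L7h55.TN.S
  have e1 : (e ^ 2) ^ n = (e ^ n) ^ 2 := by rw [← pow_mul, ← pow_mul, mul_comm]
  have e2 : (e ^ 2) ^ (n + 1) = (e ^ n) ^ 2 * e ^ 2 := by rw [pow_succ, e1]
  rw [e2, e1]
  linear_combination key

theorem result :
    (∀ m n : ℕ, 1 < m → m < n → ∀ z : ℂ, aeval z (S m) = 0 → aeval z (S n) = 0 →
      z = 1 ∨ z = -1) ∧
    (∀ m n : ℕ, 1 < m → m < n → ∀ t : ℝ,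
      Real.cos t * Real.sin (m * t) = m * (Real.sin t * Real.cos (m * t)) →
      Real.cos t * Real.sin (n * t) = n * (Real.sin t * Real.cos (n * t)) →
      Real.sin (2 * t) = 0) := by
  have hCIR := Pool.Agent.L7h87.TN.s_CIR
  have hCYR := Pool.Agent.L7h99.TN.s_CYR (Pool.Agent.L7h9.TN.s_ODD Pool.Agent.L7h9.TN.s_SML)
  have hINT := Pool.Agent.L7h73.TN.s_INT hCIR hCYR Pool.Agent.L7h25.TN.s_KRO
  have main : Pool.Agent.L7h55.TN.S_FIN := Pool.Agent.L7h55.TN.s_FIN hINT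
    Pool.Agent.L7h87.TN.s_VAL Pool.Agent.L7h16.TN.s_LEM (Pool.Agent.L7h87.TN.s_NZ hCIR)
    Pool.Agent.L7h87.TN.s_SIZ Pool.Agent.L7h87.TN.s_NUM Pool.Agent.L7h73.TN.s_NUM2
  refine ⟨fun m n hm hmn z h1 h2 => ?_, fun m n hm hmn t h1 h2 => ?_⟩
  · rw [aeval_S] at h1 h2
    exact main m n hm hmn z h1 h2
  · have h := main m n hm hmn _ (S_exp m t h1) (S_exp n t h2)
    have hI : Complex.I ^ 2 = -1 := Complex.I_sq
    set e := Complex.exp (t * Complex.I) with he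
    have h4 : e ^ 4 = 1 := by
      rcases h with h | h
      · calc e ^ 4 = (e ^ 2) ^ 2 := by ring
          _ = 1 := by rw [h]; norm_num
      · calc e ^ 4 = (e ^ 2) ^ 2 := by ring
          _ = 1 := by rw [h]; norm_num
    have h5 : Complex.exp (((2 * (2 * t) : ℝ) : ℂ) * Complex.I) = 1 := by
      rw [← h4, he, ← Complex.exp_nat_mul]
      congr 1
      push_cast
      ring
    have h6 : Real.cos (2 * (2 * t)) = 1 := by
      have := congrArg Complex.re h5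
      rw [Complex.exp_ofReal_mul_I_re] at this
      simpa using this
    have h7 := Real.cos_two_mul (2 * t)
    have h8 := Real.sin_sq_add_cos_sq (2 * t)
    have h9 : Real.sin (2 * t) ^ 2 = 0 := by nlinarith
    exact pow_eq_zero_iff (two_ne_zero) |>.mp h9

end Pool.Agent.Results.MP_9c0351_nt.NoCommonRoots
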