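import Mathlib
import Pool.Agent.L7h91.GT.Main

/-! The number of irreducible factors of the reduced polynomials of `S_n`. -/

namespace Pool.Agent.Results.MP_9c0351_nt.NumberOfFactors

open Polynomial

/-- The polynomial `S_n` of the problem. -/
noncomputable def S (n : ℕ) : ℤ[X] :=
  C ((n : ℤ) - 1) * (X ^ (n + 1) - 1) - C ((n : ℤ) + 1) * (X ^ n - X)

/-- The reduced polynomial of the problem: the quotient of `S_n` by the monic polynomial
`(x-1)^3 (x+1)` for odd `n` and `(x-1)^3` for even `n` (the divisions are exact). -/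
noncomputable def redS (n : ℕ) : ℤ[X] :=
  if Odd n then S n /ₘ ((X - 1) ^ 3 * (X + 1)) else S n /ₘ (X - 1) ^ 3

/-- The reduced polynomial over `ℚ`. -/
noncomputable def redSQ (n : ℕ) : ℚ[X] := (redS n).map (Int.castRingHom ℚ)

/-- For every `n ≥ 4`, if the reduced polynomial is a product of `k` nonconstant polynomials over
`ℚ`, then `k` is at most the number of primes dividing `(n-1)/gcd(2,n-1)`. -/
theorem result (n : ℕ) (hn : 4 ≤ n) (k : ℕ) (f : Fin k → ℚ[X]) (hf : ∀ i, 0 < (f i).natDegree)
    (hprod : redSQ n = ∏ i, f i) : k ≤ ((n - 1) / Nat.gcd 2 (n - 1)).primeFactors.card :=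
  Pool.Agent.L7h91.GT.count hn k f hf hprod

end Pool.Agent.Results.MP_9c0351_nt.NumberOfFactors
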